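import Mathlib
import Pool.Agent.BVDim.LineField
import Pool.Agent.BVDim.VecInt
import Pool.Agent.BVDim2.Scale
import Pool.Agent.BVDim2.Cone
import Pool.Agent.BVDim2.Params

set_option autoImplicit false

namespace Pool.Agent.Results.MP_a02827_an.BoundFailsForEveryMiddleIndex

open MeasureTheory Metric WithLp Pool.Agent.BVDim
open scoped ContDiff ENNReal

/-- The Euclidean space `ℝ^d`. -/
abbrev RR (d : ℕ) := EuclideanSpace ℝ (Fin d)

/-- The Hermitian space `ℂ^d`. -/
abbrev CC (d : ℕ) := EuclideanSpace ℂ (Fin d)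

/-- `Ω` is a smooth map from the unit sphere `S^{d-1}` to the Grassmannian `G(d,1)` of complex lines
of `ℂ^d`: near every point of the sphere it is spanned by a smooth nowhere vanishing `ℂ^d`-valued
function. -/
def IsSmoothLineField {d : ℕ} (Ω : sphere (0 : RR d) 1 → Submodule ℂ (CC d)) : Prop :=
  ∀ ξ₀ : sphere (0 : RR d) 1, ∃ (U : Set (RR d)) (w : RR d → CC d),
    IsOpen U ∧ (ξ₀ : RR d) ∈ U ∧ ContDiffOn ℝ ∞ w U ∧
      ∀ ξ : sphere (0 : RR d) 1, (ξ : RR d) ∈ U → w ξ ≠ 0 ∧ Ω ξ = Submodule.span ℂ {w ξ}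

/-- `k`-antisymmetry: the lines `Ω(ξ)`, `ξ` in the sphere of any `(k+1)`-dimensional real subspace
`L`, have intersection `{0}`. -/
def IsAntisymmetric {d : ℕ} (Ω : sphere (0 : RR d) 1 → Submodule ℂ (CC d)) (k : ℕ) : Prop :=
  ∀ L : Submodule ℝ (RR d), Module.finrank ℝ L = k + 1 →
    (⨅ (ξ : sphere (0 : RR d) 1) (_ : (ξ : RR d) ∈ L), Ω ξ) = ⊥

/-- `a(Ω)`: the least `k` in `{0, ..., d-1}` such that `Ω` is `k`-antisymmetric. -/
noncomputable def antisymmetryIndex {d : ℕ} (Ω : sphere (0 : RR d) 1 → Submodule ℂ (CC d)) : ℕ :=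
  sInf {k | k < d ∧ IsAntisymmetric Ω k}

/-- The Fourier transform `∫ exp(-2πi⟨x,ξ⟩) dμ(x)` of a `ℂ^d`-valued measure. -/
noncomputable def fourierTransform {d : ℕ} (μ : VectorMeasure (RR d) (CC d)) (ξ : RR d) : CC d :=
  μ.integral (fun x : RR d => Complex.exp (-(2 * Real.pi * inner ℝ x ξ : ℝ) * Complex.I))
    (ContinuousLinearMap.lsmul ℝ ℂ)

/-- The class `BV(Ω)`: the `ℂ^d`-valued measures of bounded variation whose Fourier transform at
`ξ ≠ 0` lies in `Ω(ξ/|ξ|)` (written with `ξ = r η`, `|η| = 1`, `r > 0`). -/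
def BV {d : ℕ} (Ω : sphere (0 : RR d) 1 → Submodule ℂ (CC d)) : Set (VectorMeasure (RR d) (CC d)) :=
  {μ | IsFiniteMeasure μ.variation ∧
    ∀ (η : sphere (0 : RR d) 1) (r : ℝ), 0 < r → fourierTransform μ (r • (η : RR d)) ∈ Ω η}

/-- Lower Hausdorff dimension of a `ℂ^d`-valued measure: the infimum of the `α` such that some Borel
set of Hausdorff dimension at most `α` is charged by `μ`. -/
noncomputable def lowerDim {d : ℕ} (μ : VectorMeasure (RR d) (CC d)) : ℝ≥0∞ :=
  sInf {α | ∃ F : Set (RR d), MeasurableSet F ∧ μ F ≠ 0 ∧ dimH F ≤ α}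

/-- **The bound of Q1 fails for every index `1 ≤ a ≤ d - 2`**, and no bound better than
`d / (a + 1)` holds: for every real `s > d / (a + 1)` there are a smooth non-constant field of
lines with `a(Ω) = a` and a measure `μ` in `BV(Ω)` with `dim_H μ ≤ s`, and with
`dim_H μ < d - a`. -/
theorem result (d a : ℕ) (ha : 1 ≤ a) (had : a + 2 ≤ d) (s : ℝ) (hs : (d : ℝ) / (a + 1) < s) :
    ∃ Ω : sphere (0 : RR d) 1 → Submodule ℂ (CC d),
      IsSmoothLineField Ω ∧ (∃ ξ η, Ω ξ ≠ Ω η) ∧ antisymmetryIndex Ω = a ∧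
      ∃ μ ∈ BV Ω, lowerDim μ ≤ ENNReal.ofReal s ∧
        lowerDim μ < (d : ℝ≥0∞) - (antisymmetryIndex Ω : ℝ≥0∞) := by
  have hd0 : 0 < d := by omega
  have hdr : (0 : ℝ) < d := by exact_mod_cast hd0
  have har : (1 : ℝ) ≤ a := by exact_mod_cast ha
  have hadr : (a : ℝ) + 2 ≤ d := by exact_mod_cast had
  -- a smaller value of `s`
  have hmid : (d : ℝ) / (a + 1) < d - a := by
    rw [div_lt_iff₀ (by linarith)]
    nlinarith
  obtain ⟨s', hs1, hs2⟩ : ∃ s', (d : ℝ) / (a + 1) < s' ∧ s' < min s (d - a) :=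
    exists_between (lt_min hs hmid)
  have hs3 : s' < s := hs2.trans_le (min_le_left _ _)
  have hs4 : s' < d - a := hs2.trans_le (min_le_right _ _)
  have hs0 : 0 < s' := lt_trans (by positivity) hs1
  have hsd : (d : ℝ) < ((a : ℝ) + 1) * s' := by
    rw [div_lt_iff₀ (by linarith)] at hs1
    linarith
  -- parameters
  obtain ⟨K, M, q, g, b, κ, t, θ, W, hK, hM, hb, hbM, hκ0, hκb, hκa, hq, hq1, hg, hgq, hgM, ht, hθ,
    hθt, hW, hρ⟩ := BVDim2.exists_params a d ha s' hsd
  have hbr : (1 : ℝ) ≤ b := by exact_mod_cast hb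
  have hκ : κ ≤ 1 / 2 := by nlinarith
  obtain ⟨ψ, hψ⟩ := exists_isCutoff κ hκ0
  obtain ⟨σ, hσp, hσc⟩ := exists_limit_measure hM hψ hq hκ hq1
  have hσ : IsLimit M q ψ σ := ⟨hσp, hσc⟩
  -- the exceptional set
  have hdim : dimH (BVDim2.EE K d q g) ≤ (s'.toNNReal : ℝ≥0∞) := by
    apply BVDim2.dimH_EE_le K d q g hq1 (t := t) (θ := θ) (W := W) ht hθ hθt
    · exact (sum_wl_le q g ht).trans hW
    · exact Real.toNNReal_pos.2 hs0
    · rw [Real.coe_toNNReal _ hs0.le]
      exact hρ
  have hlt : s'.toNNReal < (d : NNReal) := by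
    rw [← NNReal.coe_lt_coe, Real.coe_toNNReal _ hs0.le]
    push_cast
    linarith
  have hvol : (volume : Measure (Fin d → ℝ)) (BVDim2.EE K d q g) = 0 :=
    BVDim2.volume_EE_eq_zero K d q g hdim hlt
  have hpos := BVDim2.measure_EE K hK hM hψ hq hκ hq1 hσ g hg hgq hgM d hd0
  -- the two measures on Euclidean space
  set Λ : Measure (Fin d → ℝ) := Measure.pi (fun _ : Fin d => σ) with hΛ
  have hfin2 : IsFiniteMeasure (lam2 d ψ) := lam2_finite d hψ
  set l1 : Measure (RR d) := Λ.map (toLp 2) with hl1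
  set l2 : Measure (RR d) := (lam2 d ψ).map (toLp 2) with hl2
  have hmeas : Measurable (toLp 2 : (Fin d → ℝ) → RR d) :=
    (MeasurableEquiv.toLp 2 (Fin d → ℝ)).measurable
  have hf1 : IsFiniteMeasure l1 := Measure.isFiniteMeasure_map _ _
  have hf2 : IsFiniteMeasure l2 := Measure.isFiniteMeasure_map _ _
  -- the smooth function
  obtain ⟨χ, hχsupp, hχs, hχr⟩ :=
    (BVDim2.isOpen_Uset a M b d).exists_contDiff_support_eq (n := ⊤)
  have hχ0 : ∀ ξ, 0 ≤ χ ξ := fun ξ => (hχr ⟨ξ, rfl⟩).1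
  have hχZ : ∀ ξ, ξ ∉ BVDim2.Uset a M b d → χ ξ = 0 := by
    intro ξ hξ
    by_contra h
    have : ξ ∈ Function.support χ := h
    rw [hχsupp] at this
    exact hξ this
  have hχpos : ∀ ξ, ξ ∈ BVDim2.Uset a M b d → 0 < χ ξ := by
    intro ξ hξ
    have : ξ ∈ Function.support χ := by rw [hχsupp]; exact hξ
    exact lt_of_le_of_ne (hχ0 ξ) (Ne.symm this)
  let i0 : Fin d := ⟨0, hd0⟩
  let e0 : CC d := EuclideanSpace.single i0 (1 : ℂ)
  have he0 : ‖e0‖ = 1 := by simp [e0]
  let Ω : sphere (0 : RR d) 1 → Submodule ℂ (CC d) := fun ξ => Submodule.span ℂ {ww d i0 χ ξ}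
  have hΩZ : ∀ ξ : sphere (0 : RR d) 1, (ξ : RR d) ∉ BVDim2.Uset a M b d →
      Ω ξ = Submodule.span ℂ {e0} := by
    intro ξ hξ
    show Submodule.span ℂ {ww d i0 χ ξ} = Submodule.span ℂ {e0}
    have : ww d i0 χ ξ = e0 := by
      unfold ww
      rw [hχZ _ hξ, zero_smul, add_zero]
    rw [this]
  -- `a`-antisymmetry
  have hanti : IsAntisymmetric Ω a := by
    intro L hL
    obtain ⟨ξ, hξL, hξn, hξZ⟩ := BVDim2.subspace_meets hb hbM L hL
    rw [eq_bot_iff]
    intro v hv
    rw [Submodule.mem_bot]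
    simp only [Submodule.mem_iInf] at hv
    have h1 := hv ⟨ξ, by rw [mem_sphere_zero_iff_norm]; exact hξn⟩ hξL
    have h2 := hv ⟨-ξ, by rw [mem_sphere_zero_iff_norm, norm_neg]; exact hξn⟩ (L.neg_mem hξL)
    -- a nonzero coordinate besides `i0`
    have hk : ∃ k, k ≠ i0 ∧ ξ k ≠ 0 := by
      by_contra hcon
      push Not at hcon
      refine BVDim2.not_mem_Uset (fun l hl => ?_) hξZ
      apply hcon
      intro h0
      rw [h0] at hl
      have : (i0 : ℕ) = 0 := rfl
      omega
    obtain ⟨k, hk1, hk2⟩ := hk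
    exact inf_eq_bot hχ0 (hχpos ξ hξZ) hk1 hk2 h1 h2
  have hu : ‖(EuclideanSpace.single i0 (1 : ℝ) : RR d)‖ = 1 := by simp
  -- not `k`-antisymmetric for `k < a`
  have hnanti : ∀ k, k < a → ¬ IsAntisymmetric Ω k := by
    intro k hka h
    have hli : LinearIndependent ℝ (fun j : Fin (k + 1) =>
        (EuclideanSpace.basisFun (Fin d) ℝ) (Fin.castLE (by omega : k + 1 ≤ d) j)) :=
      ((EuclideanSpace.basisFun (Fin d) ℝ).orthonormal.linearIndependent).comp _
        (Fin.castLE_injective _)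
    have h1 := h (Submodule.span ℝ (Set.range (fun j : Fin (k + 1) =>
        (EuclideanSpace.basisFun (Fin d) ℝ) (Fin.castLE (by omega : k + 1 ≤ d) j)))) (by
      rw [finrank_span_eq_card hli, Fintype.card_fin])
    have hz : ∀ ξ : RR d, ξ ∈ Submodule.span ℝ (Set.range (fun j : Fin (k + 1) =>
        (EuclideanSpace.basisFun (Fin d) ℝ) (Fin.castLE (by omega : k + 1 ≤ d) j))) →
        ∀ l : Fin d, a ≤ l.val → ξ l = 0 := by
      intro ξ hξ l hl
      induction hξ using Submodule.span_induction with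
      | mem x hx =>
        obtain ⟨j, rfl⟩ := hx
        show (EuclideanSpace.basisFun (Fin d) ℝ (Fin.castLE (by omega : k + 1 ≤ d) j)) l = 0
        rw [EuclideanSpace.basisFun_apply]
        have hne : l ≠ Fin.castLE (by omega : k + 1 ≤ d) j := by
          intro h0
          have h2 := congrArg Fin.val h0
          rw [Fin.val_castLE] at h2
          have := j.2
          omega
        simp [hne]
      | zero => rfl
      | add x y _ _ hx hy => rw [PiLp.add_apply, hx, hy, add_zero]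
      | smul c x _ hx => rw [PiLp.smul_apply, hx, smul_zero]
    have h2 : e0 ∈ (⨅ (ξ : sphere (0 : RR d) 1) (_ : (ξ : RR d) ∈ Submodule.span ℝ (Set.range
        (fun j : Fin (k + 1) =>
          (EuclideanSpace.basisFun (Fin d) ℝ) (Fin.castLE (by omega : k + 1 ≤ d) j)))), Ω ξ) := by
      simp only [Submodule.mem_iInf]
      intro ξ hξ
      rw [hΩZ ξ (BVDim2.not_mem_Uset (hz _ hξ))]
      exact Submodule.mem_span_singleton_self e0
    rw [h1, Submodule.mem_bot] at h2
    rw [h2, norm_zero] at he0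
    norm_num at he0
  have hindex : antisymmetryIndex Ω = a := by
    unfold antisymmetryIndex
    apply le_antisymm
    · exact Nat.sInf_le ⟨by omega, hanti⟩
    · have hne : {k | k < d ∧ IsAntisymmetric Ω k}.Nonempty := ⟨a, by omega, hanti⟩
      by_contra hlt'
      exact hnanti _ (not_le.1 hlt') (Nat.sInf_mem hne).2
  -- nonconstancy
  have hnonconst : ∃ ξ η, Ω ξ ≠ Ω η := by
    by_contra hcon
    push Not at hcon
    -- constant field: contradiction with `a`-antisymmetry
    obtain ⟨L2, hL2⟩ : ∃ L2 : Submodule ℝ (RR d), Module.finrank ℝ L2 = a + 1 := by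
      have hli : LinearIndependent ℝ (fun j : Fin (a + 1) =>
          (EuclideanSpace.basisFun (Fin d) ℝ) (Fin.castLE (by omega : a + 1 ≤ d) j)) :=
        ((EuclideanSpace.basisFun (Fin d) ℝ).orthonormal.linearIndependent).comp _
          (Fin.castLE_injective _)
      exact ⟨_, by rw [finrank_span_eq_card hli, Fintype.card_fin]⟩
    have h1 := hanti L2 hL2
    have hsing : (EuclideanSpace.single i0 (1 : ℝ) : RR d) ∉ BVDim2.Uset a M b d := by
      apply BVDim2.not_mem_Uset
      intro l hl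
      have hne : l ≠ i0 := by
        intro h0
        rw [h0] at hl
        have : (i0 : ℕ) = 0 := rfl
        omega
      simp [hne]
    have h2 : e0 ∈ (⨅ (ξ : sphere (0 : RR d) 1) (_ : (ξ : RR d) ∈ L2), Ω ξ) := by
      simp only [Submodule.mem_iInf]
      intro ξ _
      rw [hcon ξ ⟨EuclideanSpace.single i0 (1 : ℝ), by rw [mem_sphere_zero_iff_norm]; exact hu⟩,
        hΩZ _ hsing]
      exact Submodule.mem_span_singleton_self e0
    rw [h1, Submodule.mem_bot] at h2
    rw [h2, norm_zero] at he0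
    norm_num at he0
  -- the measure
  let μ : VectorMeasure (RR d) (CC d) := cst l1 e0 - cst l2 e0
  have hvar1 : (cst l1 e0).variation = l1 := variation_cst l1 e0 he0
  have hvar2 : (cst l2 e0).variation = l2 := variation_cst l2 e0 he0
  have hcharp : ∀ ξ : RR d, charFun l1 ((2 * Real.pi) • ξ) = ∏ i, charFun σ (2 * Real.pi * ξ i) := by
    intro ξ
    rw [hl1, hΛ, charFun_pi]
    rfl
  have hcharp2 : ∀ ξ : RR d, charFun l2 ((2 * Real.pi) • ξ) = ∏ i, Phi M q ψ 0 (ξ i) := by
    intro ξ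
    rw [hl2, charFun_lam2 (M := M) (q := q) d hψ]
    apply Finset.prod_congr rfl
    intro i _
    congr 1
    rw [PiLp.smul_apply, smul_eq_mul]
    have := Real.pi_ne_zero
    field_simp
  have hft : ∀ ξ : RR d, fourierTransform μ ξ =
      (charFun l1 ((2 * Real.pi) • (-ξ)) - charFun l2 ((2 * Real.pi) • (-ξ))) • e0 := by
    intro ξ
    have hint : ∀ l : Measure (RR d), IsFiniteMeasure l →
        Integrable (fun x : RR d => Complex.exp (-(2 * Real.pi * inner ℝ x ξ : ℝ) * Complex.I)) l := by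
      intro l hl
      apply Integrable.of_bound (C := 1)
      · exact (by fun_prop : Continuous (fun x : RR d =>
          Complex.exp (-(2 * Real.pi * inner ℝ x ξ : ℝ) * Complex.I))).aestronglyMeasurable
      · refine Filter.Eventually.of_forall (fun x => ?_)
        rw [← Complex.ofReal_neg, Complex.norm_exp_ofReal_mul_I]
    have hch : ∀ l : Measure (RR d), charFun l ((2 * Real.pi) • (-ξ)) =
        ∫ x : RR d, Complex.exp (-(2 * Real.pi * inner ℝ x ξ : ℝ) * Complex.I) ∂l := by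
      intro l
      rw [charFun_apply]
      congr 1
      funext x
      rw [inner_smul_right, inner_neg_right]
      congr 2
      push_cast
      ring
    unfold fourierTransform
    show (cst l1 e0 - cst l2 e0).integral _ _ = _
    rw [VectorMeasure.integral_sub_vectorMeasure]
    · rw [integral_cst l1 e0 he0 _ (hint l1 hf1), integral_cst l2 e0 he0 _ (hint l2 hf2), hch, hch,
        sub_smul]
    · show Integrable _ (cst l1 e0).variation
      rw [hvar1]; exact hint l1 hf1
    · show Integrable _ (cst l2 e0).variation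
      rw [hvar2]; exact hint l2 hf2
  have hμBV : μ ∈ BV Ω := by
    refine ⟨?_, ?_⟩
    · have h1 : μ.variation ≤ l1 + l2 := by
        have := VectorMeasure.variation_sub_le (μ := cst l1 e0) (ν := cst l2 e0)
        rwa [hvar1, hvar2] at this
      exact isFiniteMeasure_of_le _ h1
    · intro η r hr
      rw [hft]
      by_cases hZ : (η : RR d) ∈ BVDim2.Uset a M b d
      · have h1 : -(r • (η : RR d)) ∈ BVDim2.Uset a M b d := by
          rw [show -(r • (η : RR d)) = (-r) • (η : RR d) by rw [neg_smul]]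
          exact BVDim2.Uset_smul_of (by linarith : -r ≠ 0) hZ
        rw [hcharp, hcharp2, BVDim2.spectrum a b hb hM hψ hq hκ0 hκb hκa hq1 hσ d hd0 _ h1,
          sub_self, zero_smul]
        exact Submodule.zero_mem _
      · rw [hΩZ η hZ]
        exact Submodule.smul_mem _ _ (Submodule.mem_span_singleton_self e0)
  -- the charged set
  let F : Set (RR d) := (MeasurableEquiv.toLp 2 (Fin d → ℝ)) '' (BVDim2.EE K d q g)
  have hFm : MeasurableSet F :=
    (MeasurableEquiv.measurableSet_image _).2 (BVDim2.measurableSet_EE K d q g)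
  have hpre : (toLp 2 : (Fin d → ℝ) → RR d) ⁻¹' F = BVDim2.EE K d q g :=
    Set.preimage_image_eq _ (MeasurableEquiv.toLp 2 (Fin d → ℝ)).injective
  have hF1 : l1 F ≠ 0 := by
    rw [hl1, Measure.map_apply hmeas hFm, hpre]
    exact hpos
  have hF2 : l2 F = 0 := by
    rw [hl2, Measure.map_apply hmeas hFm, hpre]
    exact lam2_ac d ψ hvol
  have hμF : μ F ≠ 0 := by
    show (cst l1 e0 - cst l2 e0) F ≠ 0
    rw [_root_.sub_apply, cst_apply l1 e0 hFm, cst_apply l2 e0 hFm]
    have h2 : l2.real F = 0 := by rw [Measure.real, hF2]; rfl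
    have h1 : l1.real F ≠ 0 := by
      rw [Measure.real, Ne, ENNReal.toReal_eq_zero_iff]
      push Not
      exact ⟨hF1, measure_ne_top _ _⟩
    rw [h2, zero_smul, sub_zero]
    apply smul_ne_zero h1
    intro h0
    rw [h0, norm_zero] at he0
    norm_num at he0
  have hFdim : dimH F ≤ ENNReal.ofReal s' := by
    have h1 : dimH F = dimH (BVDim2.EE K d q g) := by
      show dimH ((PiLp.continuousLinearEquiv 2 ℝ (fun _ : Fin d => ℝ)).symm ''
        (BVDim2.EE K d q g)) = _
      exact ContinuousLinearEquiv.dimH_image _ _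
    rw [h1]
    exact hdim
  have hle : lowerDim μ ≤ ENNReal.ofReal s' := sInf_le ⟨F, hFm, hμF, hFdim⟩
  refine ⟨Ω, ?_, hnonconst, hindex, μ, hμBV, hle.trans (ENNReal.ofReal_le_ofReal hs3.le), ?_⟩
  · intro ξ₀
    exact ⟨Set.univ, ww d i0 χ, isOpen_univ, trivial, (ww_smooth d i0 hχs).contDiffOn,
      fun ξ _ => ⟨ww_ne_zero d i0 χ ξ, rfl⟩⟩
  · refine lt_of_le_of_lt hle ?_
    rw [hindex]
    have h1 : ((d : ℝ≥0∞) - ((a : ℕ) : ℝ≥0∞)) = ENNReal.ofReal ((d : ℝ) - a) := by
      rw [ENNReal.ofReal_sub _ (by positivity), ENNReal.ofReal_natCast, ENNReal.ofReal_natCast]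
    rw [h1, ENNReal.ofReal_lt_ofReal_iff (by linarith)]
    exact hs4

end Pool.Agent.Results.MP_a02827_an.BoundFailsForEveryMiddleIndex
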